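import Pool.Agent.H95.INS.Targets

/-!
# The deterministic insertion lemma: assembly (module DET)
-/

open MeasureTheory ProbabilityTheory
open scoped ENNReal

namespace Pool.Agent.H64.INS

open Pool.Agent.H95.INS Pool.Agent.H99.NS Pool.Agent.H22.LPP

/-- Restriction of a path. -/
theorem isPath_sub {o e : Site} {g : ℤ → ℤ} (h : Conn o e g) {s t : ℤ} (hs : o.1 ≤ s)
    (ht : t ≤ e.1) : IsPath s t g :=
  fun r hr1 hr2 => h.1 r (by omega) (by omega)

/-- Restriction of the strip condition. -/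
theorem stay_sub {X s t s' t' : ℤ} {g : ℤ → ℤ} (h : Stay X s t g) (hs : s ≤ s') (ht : t' ≤ t) :
    Stay X s' t' g :=
  fun r hr1 hr2 => h r (by omega) (by omega)

/-- Real inequality used for the wandering local geodesic. -/
theorem num1 {sg A f Y H n w x t1 t2 : ℝ} (hsg : 0 < sg) (hf : 0 < f) (hn : 1 ≤ n)
    (hsc : w ^ 2 = 8 * n * f) (hx : (A * w) ^ 2 ≤ x ^ 2) (h4 : 4 * Y ≤ sg * A ^ 2)
    (hH : 70 * sg ≤ H / 1000) (h1 : 0 ≤ t1) (h2 : 0 ≤ t2) (h12 : t1 + t2 = 8 * n) :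
    -(sg / 2 * x ^ 2 / (t1 + 8 * n / 50)) + Y * f +
      (-(sg / 2 * x ^ 2 / (t2 + 8 * n / 50)) + Y * f) <
    (1995 / 1000) * H * f - 44 * sg * f := by
  have hd1 : 0 < t1 + 8 * n / 50 := by linarith
  have hd2 : 0 < t2 + 8 * n / 50 := by linarith
  -- harmonic mean
  have key : 4 / (8 * n * (52 / 50)) ≤ 1 / (t1 + 8 * n / 50) + 1 / (t2 + 8 * n / 50) := by
    have hs : t1 + 8 * n / 50 + (t2 + 8 * n / 50) = 8 * n * (52 / 50) := by linarith
    rw [← hs]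
    rw [div_add_div _ _ hd1.ne' hd2.ne', div_le_div_iff₀ (by linarith) (mul_pos hd1 hd2)]
    nlinarith [sq_nonneg (t1 + 8 * n / 50 - (t2 + 8 * n / 50))]
  have hA : (A * w) ^ 2 = A ^ 2 * (8 * n * f) := by rw [mul_pow, hsc]
  have hx0 : 0 ≤ x ^ 2 := sq_nonneg x
  have e1 : sg / 2 * x ^ 2 / (t1 + 8 * n / 50) + sg / 2 * x ^ 2 / (t2 + 8 * n / 50) =
      sg / 2 * x ^ 2 * (1 / (t1 + 8 * n / 50) + 1 / (t2 + 8 * n / 50)) := by
    field_simp
  have e2 : sg / 2 * (A ^ 2 * (8 * n * f)) * (4 / (8 * n * (52 / 50))) =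
      25 / 13 * (sg * A ^ 2 * f) := by
    have : n ≠ 0 := by linarith
    field_simp
    ring
  have e3 : sg / 2 * (A ^ 2 * (8 * n * f)) * (4 / (8 * n * (52 / 50))) ≤
      sg / 2 * x ^ 2 * (1 / (t1 + 8 * n / 50) + 1 / (t2 + 8 * n / 50)) := by
    rw [hA] at hx
    have hp : 0 ≤ 4 / (8 * n * (52 / 50)) := by
      apply div_nonneg <;> nlinarith
    have hq : sg / 2 * (A ^ 2 * (8 * n * f)) ≤ sg / 2 * x ^ 2 :=
      mul_le_mul_of_nonneg_left hx (by linarith)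
    exact mul_le_mul hq key hp (by positivity)
  have e4 : 2 * (Y * f) ≤ (sg * A ^ 2 * f) / 2 := by nlinarith
  have e5 : 0 ≤ sg * A ^ 2 * f := by positivity
  have e6 : 70 * sg * f ≤ H / 1000 * f := mul_le_mul_of_nonneg_right hH hf.le
  have e7 : 0 < sg * f := mul_pos hsg hf
  nlinarith [e1, e2, e3, e4, e5, e6, e7]

theorem pf_DET (h_S5 : T_S5) (h_S4 : T_S4) (h_INN : T_INN) (h_S1 : T_S1) (h_GEO : T_GEO) :
    T_DET := by
  intro D ω ω' o e hD hAg hE hEv hRR hO1 hO2 γ hO3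
  obtain ⟨hlo, hup⟩ := h_S5 D ω ω' o e hD hAg hE hEv hRR hO1 hO2 γ hO3
  have hhw := h_S4 D ω ω' o e hD hAg hE hEv hRR hO1 hO2 γ hO3
  have hn := hD.n1
  have ho1 := hE.o1
  have he1 := hE.e1
  have hre : ∀ m, IsPath (-(4 * D.n)) (4 * D.n) m → m (-(4 * D.n)) = 0 → m (4 * D.n) = 0 →
    Mlow D ≤ wt ω (-(4 * D.n)) (4 * D.n) m →
    ∃ g, Near ω o e (13 * D.H * D.f / 1000) g ∧ (∀ r ≤ -(256 * D.n), g r = γ r) ∧
      (∀ r, 256 * D.n ≤ r → g r = γ r) ∧
      (∀ r, -(4 * D.n) ≤ r → r ≤ 4 * D.n → g r = m r) := by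
    intro m hm h0 h1 hw
    obtain ⟨g, hg, ha, hb, hc, hd⟩ := h_S1 D ω ω' o e hD hAg hE hO1 hO2 γ hO3 m hm h0 h1 hw
    refine ⟨g, ⟨hg, ?_⟩, ha, hb, hc⟩
    linarith
  have hme : ∀ g g', Near ω o e (14 * D.H * D.f / 1000) g →
      Near ω o e (14 * D.H * D.f / 1000) g' →
      (∃ r, -(3 * D.n) < r ∧ r ≤ -(2 * D.n) ∧ g r = g' r) ∧
      (∃ r, 2 * D.n < r ∧ r ≤ 3 * D.n ∧ g r = g' r) := by
    intro g g' hg hg'
    obtain ⟨s1, a1, b1⟩ := hhw g hg
    obtain ⟨s2, a2, b2⟩ := hhw g' hg'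
    constructor
    · exact hEv.d1 g g' (isPath_sub hg.1 (by omega) (by omega))
        (isPath_sub hg'.1 (by omega) (by omega)) (stay_sub s1 (by omega) (by omega))
        (stay_sub s2 (by omega) (by omega)) a1 a2
    · exact hEv.d2 g g' (isPath_sub hg.1 (by omega) (by omega))
        (isPath_sub hg'.1 (by omega) (by omega)) (stay_sub s1 (by omega) (by omega))
        (stay_sub s2 (by omega) (by omega)) b1 b2
  refine ⟨hlo, hup, hre, hhw, hme, ?_⟩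
  intro Gam hGam
  obtain ⟨⟨hGc, hGw⟩, hGl⟩ := id hGam
  have hHf : 0 ≤ D.H * D.f := by
    have hq : (0:ℝ) < sg D.q := by
      unfold sg
      have h1 : 0 < √D.q := Real.sqrt_pos.2 hD.q0
      have h2 : 0 < 1 - D.q := by linarith [hD.q1]
      positivity
    have h1 := hD.c1
    have h2 : 0 ≤ 3 * D.K * (1 + D.B) := by
      have := hD.K0
      have := hD.B0
      positivity
    have h3 : 0 ≤ sg D.q * D.B ^ 2 := by positivity
    have : 0 ≤ D.H := by linarith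
    exact mul_nonneg this hD.f0.le
  -- the weight of the local geodesic
  obtain ⟨m, hm, hm0, hm1, hms, hmw⟩ := h_INN D ω hD hEv
  have hGM : Mlow D ≤ wt ω (-(4 * D.n)) (4 * D.n) Gam := by
    have h1 : Conn (-(4 * D.n), 0) (4 * D.n, 0) m := ⟨hm, hm0, hm1⟩
    have h2 : wt ω (-(4 * D.n)) (4 * D.n) m ≤ T ω (-(4 * D.n), 0) (4 * D.n, 0) :=
      le_T ω (u := (-(4 * D.n), 0)) (v := (4 * D.n, 0)) (by simp only; omega) h1
    have h3 : wt ω (-(4 * D.n)) (4 * D.n) Gam = T ω (-(4 * D.n), 0) (4 * D.n, 0) := hGw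
    linarith
  have hGp : IsPath (-(4 * D.n)) (4 * D.n) Gam := hGc.1
  have hG0 : Gam (-(4 * D.n)) = 0 := hGc.2.1
  have hG1 : Gam (4 * D.n) = 0 := hGc.2.2
  obtain ⟨g, hg, -, -, hgG⟩ := hre Gam hGp hG0 hG1 hGM
  have hg14 : Near ω o e (14 * D.H * D.f / 1000) g := by
    refine ⟨hg.1, ?_⟩
    have := hg.2
    linarith
  have hGS : Stay (16 * D.A * D.w) (-(4 * D.n)) (4 * D.n) Gam := by
    intro r hr1 hr2
    have := (hhw g hg14).1 r hr1 hr2
    rwa [hgG r hr1 hr2] at this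
  constructor
  · intro r hr1 hr2
    by_contra hcon
    push Not at hcon
    have c1 := hEv.cu (-(4 * D.n)) r Gam le_rfl hr1 hr2
      (fun x hx1 hx2 => hGp x hx1 (by omega)) (stay_sub hGS le_rfl hr2)
    have c2 := hEv.cu r (4 * D.n) Gam hr1 hr2 le_rfl
      (fun x hx1 hx2 => hGp x (by omega) hx2) (stay_sub hGS hr1 le_rfl)
    have c3 := wt_add ω hr1 hr2 Gam
    have hq : (0:ℝ) < sg D.q := by
      unfold sg
      have h1 : 0 < √D.q := Real.sqrt_pos.2 hD.q0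
      have h2 : 0 < 1 - D.q := by linarith [hD.q1]
      positivity
    have hx : ((D.A : ℝ) * D.w) ^ 2 ≤ ((Gam r : ℤ) : ℝ) ^ 2 := by
      have h1 : ((D.A * D.w : ℤ) : ℝ) ≤ |(Gam r : ℝ)| := by exact_mod_cast hcon
      push_cast at h1
      have h2 : (0:ℝ) ≤ (D.A : ℝ) * D.w := by
        have a1 : (2:ℝ) ≤ D.A := by exact_mod_cast hD.A2
        have a2 : (1:ℝ) ≤ D.w := by exact_mod_cast hD.w1
        positivity
      calc ((D.A : ℝ) * D.w) ^ 2 ≤ |(Gam r : ℝ)| ^ 2 := pow_le_pow_left₀ h2 h1 2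
        _ = _ := sq_abs _
    have hH : 70 * sg D.q ≤ D.H / 1000 := by
      have h1 := hD.c1
      have h2 : 0 ≤ 3 * D.K * (1 + D.B) := by
        have := hD.K0
        have := hD.B0
        positivity
      have h3 : 0 ≤ sg D.q * D.B ^ 2 := by positivity
      linarith
    have hn' : (1:ℝ) ≤ D.n := by exact_mod_cast hn
    have r1 : (0:ℝ) ≤ (r:ℝ) + 4 * D.n := by
      have : (0:ℝ) ≤ ((r + 4 * D.n : ℤ) : ℝ) := by exact_mod_cast (by omega : 0 ≤ r + 4 * D.n)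
      push_cast at this
      exact this
    have r2 : (0:ℝ) ≤ 4 * (D.n:ℝ) - r := by
      have : (0:ℝ) ≤ ((4 * D.n - r : ℤ) : ℝ) := by exact_mod_cast (by omega : 0 ≤ 4 * D.n - r)
      push_cast at this
      exact this
    have hnum := num1 (x := ((Gam r : ℤ) : ℝ)) hq hD.f0 hn' hD.sc hx hD.c4 hH r1 r2 (by ring)
    unfold sp at c1 c2
    unfold Mlow at hGM
    rw [hG0] at c1
    rw [hG1] at c2
    have x1 : (((Gam r - 0 : ℤ)) : ℝ) = (Gam r : ℝ) := by push_cast; ring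
    have x2 : (((0 - Gam r : ℤ)) : ℝ) ^ 2 = (Gam r : ℝ) ^ 2 := by push_cast; ring
    have x3 : (((r - -(4 * D.n) : ℤ)) : ℝ) = (r:ℝ) + 4 * D.n := by push_cast; ring
    have x4 : (((4 * D.n - r : ℤ)) : ℝ) = 4 * (D.n:ℝ) - r := by push_cast; ring
    rw [x1, x3] at c1
    rw [x2, x4] at c2
    have y1 : mu D.q * ((r:ℝ) + 4 * D.n) + mu D.q * (4 * (D.n:ℝ) - r) = mu D.q * (8 * D.n) := by
      ring
    linarith
  · intro Lam hLam
    have hLn : Near ω o e (14 * D.H * D.f / 1000) Lam := by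
      refine ⟨hLam.1.1, ?_⟩
      rw [hLam.1.2]
      linarith
    obtain ⟨⟨r1, h1a, h1b, h1c⟩, ⟨r2, h2a, h2b, h2c⟩⟩ := hme g Lam hg14 hLn
    rw [hgG r1 (by omega) (by omega)] at h1c
    rw [hgG r2 (by omega) (by omega)] at h2c
    have q1 := (h_GEO ω (-(4 * D.n), 0) (4 * D.n, 0) Gam r1 r2 (by simp only; omega) (by omega)
      (by simp only; omega)).2 hGam
    have q2 := (h_GEO ω o e Lam r1 r2 (by omega) (by omega) (by omega)).2 hLam
    rw [← h1c, ← h2c] at q2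
    intro r hr1 hr2
    exact le_antisymm (q2.2 Gam q1.1 r (by simp only; omega) (by simp only; omega))
      (q1.2 Lam q2.1 r (by simp only; omega) (by simp only; omega))

end Pool.Agent.H64.INS
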